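import Pool.Agent.W682.TW.Stm2

set_option autoImplicit false

open scoped BigOperators Topology
open MeasureTheory

namespace Pool.Agent.W33.TW.Lamn

open Pool.Agent.W682.TW

variable {m : ℕ}

lemma tp_add_left (A B C : Mt m) : tp (A + B) C = tp A C + tp B C := by
  simp [tp, Matrix.add_mul]

lemma tp_add_right (A B C : Mt m) : tp A (B + C) = tp A B + tp A C := by
  simp [tp, Matrix.mul_add]

lemma tp_smul_left (c : ℝ) (A C : Mt m) : tp (c • A) C = c * tp A C := by
  simp [tp]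

lemma tp_smul_right (c : ℝ) (A C : Mt m) : tp A (c • C) = c * tp A C := by
  simp [tp]

lemma tp_sub_left (A B C : Mt m) : tp (A - B) C = tp A C - tp B C := by
  simp [tp, Matrix.sub_mul]

lemma tp_sub_right (A B C : Mt m) : tp A (B - C) = tp A B - tp A C := by
  simp [tp, Matrix.mul_sub]

lemma tp_rank_one (v : Fin 2 → ℝ) (b : Fin m → ℝ) (J : Mt m)
    (h : ∀ α, ∑ i : Fin 2, v i * J i α = 0) : tp (Matrix.vecMulVec v b) J = 0 := by
  have h1 : tp (Matrix.vecMulVec v b) J = ∑ α, b α * ∑ i : Fin 2, v i * J i α := by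
    simp only [tp, Matrix.trace, Matrix.diag_apply, Matrix.mul_apply, Matrix.vecMulVec_apply,
      Matrix.transpose_apply, Finset.mul_sum]
    rw [Finset.sum_comm]
    refine Finset.sum_congr rfl fun α _ => Finset.sum_congr rfl fun i _ => ?_
    ring
  rw [h1]
  simp [h]

lemma step_ineq (g : Mt m → ℝ) (hg : RankOne g) (A B C : Mt m →ₗ[ℝ] Mt m) (lam : ℝ)
    (h0 : 0 ≤ lam) (h1 : lam ≤ 1) (v : Fin 2 → ℝ) (hL : Layer A B lam v C)
    (hA : ∀ H, g H ≤ tp H (A H)) (hB : ∀ H, g H ≤ tp H (B H)) (E : Mt m) :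
    g E ≤ tp E (C E) := by
  obtain ⟨b, hb, hC⟩ := hL E
  set X : Mt m := Matrix.vecMulVec v b with hX
  set EA : Mt m := E + (1 - lam) • X with hEA
  set EB : Mt m := E - lam • X with hEB
  have hJ : tp X (A EA - B EB) = 0 := tp_rank_one v b _ hb
  rw [tp_sub_right] at hJ
  have e1 : tp EA (A EA) = tp E (A EA) + (1 - lam) * tp X (A EA) := by
    nth_rewrite 1 [hEA]
    rw [tp_add_left, tp_smul_left]
  have e2 : tp EB (B EB) = tp E (B EB) - lam * tp X (B EB) := by
    nth_rewrite 1 [hEB]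
    rw [tp_sub_left, tp_smul_left]
  have e3 : tp E (C E) = lam * tp E (A EA) + (1 - lam) * tp E (B EB) := by
    rw [hC, tp_add_right, tp_smul_right, tp_smul_right]
  have hconv := (hg E v b).2 (Set.mem_univ (1 - lam)) (Set.mem_univ (-lam)) h0
    (sub_nonneg.mpr h1) (by ring)
  have ez : lam * (1 - lam) + (1 - lam) * (-lam) = (0:ℝ) := by ring
  have hEB' : E + (-lam) • Matrix.vecMulVec v b = EB := by
    rw [hEB, hX, neg_smul, sub_eq_add_neg]
  simp only [smul_eq_mul] at hconv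
  rw [ez, zero_smul, add_zero, hEB'] at hconv
  have h3 := hA EA
  have h4 := hB EB
  have h5 : lam * g EA ≤ lam * tp EA (A EA) := mul_le_mul_of_nonneg_left h3 h0
  have h6 : (1 - lam) * g EB ≤ (1 - lam) * tp EB (B EB) :=
    mul_le_mul_of_nonneg_left h4 (sub_nonneg.mpr h1)
  rw [e3]
  have e1' : tp E (A EA) = tp EA (A EA) - (1 - lam) * tp X (A EA) := by linarith
  have e2' : tp E (B EB) = tp EB (B EB) + lam * tp X (B EB) := by linarith
  have hJ' : tp X (A EA) = tp X (B EB) := by linarith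
  rw [e1', e2', hJ']
  calc g E ≤ lam * g EA + (1 - lam) * g EB := hconv
    _ ≤ lam * tp EA (A EA) + (1 - lam) * tp EB (B EB) := add_le_add h5 h6
    _ = _ := by ring

lemma lam_ineq (g : Mt m → ℝ) (hg : RankOne g) (L₁ L₂ : Mt m →ₗ[ℝ] Mt m)
    (h1 : ∀ H, g H ≤ tp H (L₁ H)) (h2 : ∀ H, g H ≤ tp H (L₂ H)) (f : ℝ) (L : Mt m →ₗ[ℝ] Mt m)
    (hL : Lam L₁ L₂ f L) : ∀ H, g H ≤ tp H (L H) := by
  induction hL with
  | one => exact h1
  | two => exact h2
  | step f g' lam A B C v _ _ h0 h1' _ hLay ihA ihB =>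
    exact step_ineq g hg A B C lam h0 h1' v hLay ihA ihB

theorem main : S_LAM := by
  intro m L₁ L₂ g f L hg h1 h2 hL H
  obtain ⟨q, hq, hlim⟩ := hL
  have hc : Continuous (fun B : Mt m => tp H B) := by
    unfold tp
    exact (continuous_const.matrix_mul continuous_id.matrix_transpose).matrix_trace
  have ht : Filter.Tendsto (fun k => tp H (q k H)) Filter.atTop (𝓝 (tp H (L H))) :=
    (hc.tendsto (L H)).comp (hlim H)
  exact ge_of_tendsto' ht (fun k => lam_ineq g hg L₁ L₂ h1 h2 f (q k) (hq k) H)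

end Pool.Agent.W33.TW.Lamn
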